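import Mathlib
import Pool.Agent.H.MP_0fee77_co.A

set_option autoImplicit false

namespace Pool.Agent.Results.MP_0fee77_co.No

open Pool.Agent.H.MP_0fee77_co

theorem result :
    (∀ s m : ℕ, 4 ≤ s → 2 ≤ m →
      sat (2 + m * s) (Set.Icc 4 (2 * s + 1)) < sat (2 + m * s) (Set.Ici 4)) ∧
    ¬ ∃ (r₀ : ℕ → ℕ) (n₀ : ℕ → ℕ → ℕ), ∀ s r n : ℕ, 4 ≤ s → r₀ s ≤ r → n₀ s r ≤ n →
      sat n (Set.Icc s r) = sat n (Set.Ici s) := by
  have key : ∀ s m : ℕ, 4 ≤ s → 2 ≤ m →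
      sat (2 + m * s) (Set.Icc 4 (2 * s + 1)) < sat (2 + m * s) (Set.Ici 4) := by
    intro s m hs hm
    obtain ⟨G, h1, h2⟩ := Pool.Agent.H.MP_50682e_co.main m s hm (by omega)
    rw [show 2 * (s + 1) - 1 = 2 * s + 1 by omega] at h1
    have h3 : sat (2 + m * s) (Set.Icc 4 (2 * s + 1)) ≤ m * (s + 1) :=
      le_trans (b := G.edgeSet.ncard) (Nat.sInf_le ⟨G, h1, rfl⟩) h2
    obtain ⟨G0, h0⟩ := exists_sat (2 + m * s) (Set.Ici 4)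
    obtain ⟨G1, h4, h5⟩ : sat (2 + m * s) (Set.Ici 4) ∈
        {k | ∃ G : SimpleGraph (Fin (2 + m * s)), Sat G (Set.Ici 4) ∧ G.edgeSet.ncard = k} :=
      Nat.sInf_mem ⟨_, G0, h0, rfl⟩
    have h6 := lower (by omega) h4
    have h7 := Nat.mul_le_mul_left m hs
    rw [Nat.mul_add] at h3
    omega
  refine ⟨key, ?_⟩
  rintro ⟨r₀, n₀, h⟩
  have a := key (r₀ 4 + 4) (n₀ 4 (2 * (r₀ 4 + 4) + 1) + 2) (by omega) (by omega)
  rw [h 4 _ _ le_rfl (by omega) (by nlinarith)] at a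
  exact lt_irrefl _ a

end Pool.Agent.Results.MP_0fee77_co.No
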